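import Mathlib
import Pool.Agent.H15.Sgr1

set_option autoImplicit false

namespace Pool.Agent.Results.MP_c8715f_al.NotSGroup
open Filter Topology Pool.Agent.H15.Psc

/-- `t` is a Hausdorff group topology in which every sequence of `S` converges to the identity. -/
def Adm {A : Type} [CommGroup A] (S : Set (ℕ → A)) (t : TopologicalSpace A) : Prop :=
  @IsTopologicalGroup A t _ ∧ @T2Space A t ∧ ∀ u ∈ S, Tendsto u atTop (@nhds A t 1)

/-- The topology of `A` is the finest Hausdorff group topology in which every sequence of some set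
`S` of sequences converges to the identity. -/
def IsSGroup (A : Type) [CommGroup A] [τ : TopologicalSpace A] : Prop :=
  ∃ S : Set (ℕ → A), Adm S τ ∧
    ∀ t : TopologicalSpace A, Adm S t → ∀ U : Set A, IsOpen[t] U → IsOpen[τ] U

theorem result : ∃ (G : Type) (_ : CommGroup G) (_ : TopologicalSpace G) (_ : IsTopologicalGroup G),
    T2Space G ∧ TopologicalSpace.MetrizableSpace G ∧ ¬ TopologicalSpace.SeparableSpace G ∧
      FrechetUrysohnSpace G ∧ SequentialSpace G ∧ ¬ IsSGroup (PontryaginDual G) := by
  have : TopologicalSpace.MetrizableSpace (Multiplicative CS) :=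
    inferInstanceAs (TopologicalSpace.MetrizableSpace CS)
  refine ⟨Multiplicative CS, inferInstance, inferInstance, inferInstance, inferInstance, this, nonsep,
    inferInstance, inferInstance, fun ⟨S, ⟨h1, h2, h3⟩, h⟩ => ?_⟩
  obtain ⟨ψ, p1, p2⟩ := exists_psi
  refine p1 (continuous_iff_le_induced.2 (le_trans ?_ (inf_le_right
    (a := (inferInstance : TopologicalSpace (PontryaginDual (Multiplicative CS)))))))
  refine h _ ⟨topologicalGroup_inf h1 (topologicalGroup_induced ψ), t2Space_antitone inf_le_left h2,
    fun u hu => ?_⟩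
  rw [nhds_inf, tendsto_inf, nhds_induced, tendsto_comap_iff, map_one]
  exact ⟨h3 u hu, p2 u (h3 u hu)⟩

end Pool.Agent.Results.MP_c8715f_al.NotSGroup
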